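import Pool.Agent.Q120.MG.D5

/-!
# Too many numbers without small prime factors in some initial segments
-/

set_option autoImplicit false

namespace Pool.Agent.Q120.MG

open Finset Filter Topology MeasureTheory

/-- For every exponent `u` the initial segment of some length between `z ^ u` and `z ^ S` has too many numbers without
prime factors below `z`, by a constant factor. -/
def EXC : Prop := ∀ u : ℝ, 1 ≤ u → ∃ S κ : ℝ, 0 < κ ∧ κ < 1 ∧ ∃ z₀ : ℕ, ∀ z : ℕ, z₀ ≤ z → ∃ x : ℕ,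
  (z : ℝ) ^ u ≤ x ∧ (x : ℝ) ≤ (z : ℝ) ^ S ∧ (1 + κ) * (Vf z * x) ≤ (Wf z 0 x : ℝ)

/-- Upper bound for the differences. -/
theorem II_diff_up {z : ℕ} {K : ℝ} {y y' : ℝ} (hy : 1 ≤ y) (hyy : y ≤ y') (hF : ∀ t : ℝ, y ≤ t → t ≤ y' → Fr z t ≤ K * t) :
    II z y' - II z y ≤ K * (Real.log y' - Real.log y) := by
  rw [II_sub hy hyy]
  have hy0 : 0 < y := by linarith
  have hmem : ∀ t ∈ Set.uIcc y y', 0 < t := by
    intro t ht
    rw [Set.uIcc_of_le hyy] at ht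
    linarith [ht.1]
  have i2 : IntervalIntegrable (fun t : ℝ => K * (1 / t)) volume y y' := by
    refine ContinuousOn.intervalIntegrable (ContinuousOn.mul continuousOn_const (ContinuousOn.div continuousOn_const continuousOn_id (fun t ht => ?_)))
    exact (hmem t ht).ne'
  rw [← log_int hy0 hyy, ← intervalIntegral.integral_const_mul]
  refine intervalIntegral.integral_mono_on hyy (int_Fr2 hy0 hyy) i2 (fun t ht => ?_)
  have ht0 : 0 < t := by linarith [ht.1]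
  rw [div_le_iff₀ (by positivity)]
  have h2 := hF t ht.1 ht.2
  calc Fr z t ≤ K * t := h2
    _ = K * (1 / t) * t ^ 2 := by field_simp

/-- Without an excess the counting function is close to its expected value. -/
theorem start' {u a e : ℝ} (hu : 1 ≤ u) (ha : u + 2 ≤ a) (he : 0 < e) : ∃ S κ : ℝ, 0 < κ ∧ κ < 1 ∧ ∃ z₀ : ℕ, 2 ≤ z₀ ∧
    ∀ z : ℕ, z₀ ≤ z → (∀ x : ℕ, (z : ℝ) ^ u ≤ x → (x : ℝ) ≤ (z : ℝ) ^ S → (Wf z 0 x : ℝ) < (1 + κ) * (Vf z * x)) → PP z a e := by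
  obtain ⟨A, hA⟩ : ∃ A : ℕ, A = ⌈a⌉₊ := ⟨_, rfl⟩
  have haA : a ≤ A := by rw [hA]; exact Nat.le_ceil a
  have hA0 : (0 : ℝ) ≤ A := Nat.cast_nonneg A
  obtain ⟨κ₁, hκ₁⟩ : ∃ κ₁, κ₁ = min 1 (e / (16 * ((A : ℝ) + 3))) := ⟨_, rfl⟩
  have hκ₁0 : 0 < κ₁ := by rw [hκ₁]; exact lt_min (by norm_num) (by positivity)
  have hκ₁1 : κ₁ ≤ 1 := by rw [hκ₁]; exact min_le_left _ _
  have hκ₁e : 4 * κ₁ * ((A : ℝ) + 3) ≤ e / 4 := by
    have h1 : κ₁ ≤ e / (16 * ((A : ℝ) + 3)) := by rw [hκ₁]; exact min_le_right _ _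
    calc 4 * κ₁ * ((A : ℝ) + 3) ≤ 4 * (e / (16 * ((A : ℝ) + 3))) * ((A : ℝ) + 3) := by
          refine mul_le_mul_of_nonneg_right (by linarith) (by linarith)
      _ = e / 4 := by
        field_simp
        ring
  obtain ⟨s, hs, z₁, hz₁, hfund⟩ := fund hκ₁0 hκ₁1
  obtain ⟨M, hM⟩ : ∃ M : ℕ, M = s + A + 1 := ⟨_, rfl⟩
  have hsr : (1 : ℝ) ≤ s := by exact_mod_cast hs
  have hMr : (M : ℝ) = s + A + 1 := by rw [hM]; push_cast; ring
  have hM0 : 0 < (M : ℝ) := by rw [hMr]; linarith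
  obtain ⟨κ, hκ⟩ : ∃ κ, κ = min (1 / 2) (e / (32 * ((M : ℝ) + 2))) := ⟨_, rfl⟩
  have hκ0 : 0 < κ := by rw [hκ]; exact lt_min (by norm_num) (by positivity)
  have hκ1 : κ ≤ 1 / 2 := by rw [hκ]; exact min_le_left _ _
  have hκe : 8 * κ * ((M : ℝ) + 2) ≤ e / 4 := by
    have h1 : κ ≤ e / (32 * ((M : ℝ) + 2)) := by rw [hκ]; exact min_le_right _ _
    calc 8 * κ * ((M : ℝ) + 2) ≤ 8 * (e / (32 * ((M : ℝ) + 2))) * ((M : ℝ) + 2) := by
          refine mul_le_mul_of_nonneg_right (by linarith) (by linarith)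
      _ = e / 4 := by
        field_simp
        ring
  obtain ⟨z₃, hz₃, hstar⟩ := star (a := a) (S := (M : ℝ) + 1) (η := e / 8) (by linarith) (by positivity)
  refine ⟨(M : ℝ) + 1, κ, hκ0, by linarith, max z₁ z₃, le_trans hz₁ (le_max_left _ _), fun z hz hno => ?_⟩
  have hzz₁ : z₁ ≤ z := le_trans (le_max_left _ _) hz
  have hzz₃ : z₃ ≤ z := le_trans (le_max_right _ _) hz
  have hzr : (2 : ℝ) ≤ z := by exact_mod_cast le_trans hz₁ hzz₁
  have hz0 : (0 : ℝ) < z := by linarith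
  have hz1 : (1 : ℝ) ≤ z := by linarith
  obtain ⟨lz, hlz⟩ : ∃ lz, lz = Real.log (z : ℝ) := ⟨_, rfl⟩
  have hlz0 : 0 < lz := by rw [hlz]; exact Real.log_pos (by linarith)
  obtain ⟨hV, hfz⟩ := hfund z hzz₁
  rw [← hlz] at hV
  have hVp := Vf_pos z
  -- the real form of the hypothesis
  have hreal : ∀ t : ℝ, (z : ℝ) ^ (a - 1) ≤ t → t ≤ (z : ℝ) ^ ((M : ℝ) + 1) → Fr z t ≤ (1 + κ) * Vf z * t := by
    intro t ht1 ht2
    have h1 : (z : ℝ) ^ (u + 1) ≤ t := le_trans (Real.rpow_le_rpow_of_exponent_le hz1 (by linarith)) ht1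
    rw [Real.rpow_add hz0, Real.rpow_one] at h1
    have h2 : 1 ≤ (z : ℝ) ^ u := Real.one_le_rpow hz1 (by linarith)
    have ht0 : 0 < t := by nlinarith
    have h3 := Nat.lt_floor_add_one t
    have h4 := Nat.floor_le ht0.le
    have h5 : (z : ℝ) ^ u ≤ ⌊t⌋₊ := by nlinarith
    have h6 := hno ⌊t⌋₊ h5 (h4.trans ht2)
    rw [← Fr_Wf] at h6
    calc Fr z t ≤ (1 + κ) * (Vf z * ⌊t⌋₊) := h6.le
      _ ≤ (1 + κ) * (Vf z * t) := mul_le_mul_of_nonneg_left (mul_le_mul_of_nonneg_left h4 hVp.le) (by linarith)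
      _ = (1 + κ) * Vf z * t := by ring
  intro x hx1 hx2
  have hza : (z : ℝ) ≤ (z : ℝ) ^ (a - 1) := by
    calc (z : ℝ) = (z : ℝ) ^ (1 : ℝ) := (Real.rpow_one _).symm
      _ ≤ (z : ℝ) ^ (a - 1) := Real.rpow_le_rpow_of_exponent_le hz1 (by linarith)
  have hpa : (z : ℝ) ^ a = (z : ℝ) ^ (a - 1) * z := by
    rw [show a = (a - 1) + 1 by ring, Real.rpow_add hz0 (a - 1), Real.rpow_one]
    ring_nf
  have hpa2 : (z : ℝ) ^ (a + 2) = (z : ℝ) ^ (a + 1) * z := by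
    rw [show a + 2 = (a + 1) + 1 by ring, Real.rpow_add hz0 (a + 1), Real.rpow_one]
  have hx0 : 0 < x := lt_of_lt_of_le (by positivity) hx1
  have hlx : Real.log x ≤ (a + 2) * lz := by
    have h1 := Real.log_le_log hx0 hx2
    rw [Real.log_rpow hz0, ← hlz] at h1
    exact h1
  have hlx0 : 0 ≤ Real.log x := by
    refine Real.log_nonneg (le_trans ?_ hx1)
    exact Real.one_le_rpow hz1 (by linarith)
  have hxS : x ≤ (z : ℝ) ^ ((M : ℝ) + 1) := by
    refine hx2.trans (Real.rpow_le_rpow_of_exponent_le hz1 ?_)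
    rw [hMr]
    linarith
  rw [abs_le]
  constructor
  · -- lower bound
    obtain ⟨y, hy⟩ : ∃ y, y = x / z := ⟨_, rfl⟩
    have hxy : x = y * z := by rw [hy]; field_simp
    have hy1 : (z : ℝ) ^ (a - 1) ≤ y := by
      rw [hy, le_div_iff₀ hz0, ← hpa]
      exact hx1
    have hy2 : y ≤ (z : ℝ) ^ (a + 1) := by
      rw [hy, div_le_iff₀ hz0, ← hpa2]
      exact hx2
    have hy0 : 0 < y := by linarith
    have hy11 : 1 ≤ y := by linarith
    obtain ⟨X, hX⟩ : ∃ X, X = (z : ℝ) ^ (M : ℝ) := ⟨_, rfl⟩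
    have hyX : y ≤ X := by
      rw [hX]
      refine hy2.trans (Real.rpow_le_rpow_of_exponent_le hz1 ?_)
      rw [hMr]
      linarith
    have hX0 : 0 < X := by linarith
    have hXz : X * z = (z : ℝ) ^ ((M : ℝ) + 1) := by rw [hX, Real.rpow_add hz0 (M : ℝ), Real.rpow_one]
    have hXzn : X * z = ((z ^ (M + 1) : ℕ) : ℝ) := by
      rw [hXz, ← Nat.cast_succ, Real.rpow_natCast]
      push_cast
      rfl
    have hlX : Real.log X = M * lz := by rw [hX, Real.log_rpow hz0, hlz]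
    have hXz0 : 0 < X * z := by positivity
    -- the integral from y to X
    have h1 := II_diff_up (z := z) (K := (1 + κ) * Vf z) hy11 hyX (fun t ht1 ht2 => hreal t (hy1.trans ht1)
      (by rw [← hXz]; nlinarith))
    -- the value at X
    have h2 := hstar z hzz₃ (X * z) (by
      rw [hXz]
      refine Real.rpow_le_rpow_of_exponent_le hz1 ?_
      rw [hMr]
      linarith) (by rw [hXz])
    rw [mul_div_cancel_right₀ X hz0.ne', abs_le] at h2
    have h3 := hfz 0 (z ^ (M + 1)) (Nat.pow_le_pow_right (by omega) (by omega))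
    have h4 : Fr z (X * z) = Wf z 0 (z ^ (M + 1)) := by
      rw [Fr_Wf, hXzn, Nat.floor_natCast]
    rw [← h4, ← hXzn, abs_le] at h3
    have hlXz : Real.log (X * z) = (M + 1) * lz := by
      rw [Real.log_mul hX0.ne' hz0.ne', hlX, ← hlz]
      ring
    have h5 : (1 - κ₁ / s) * Vf z * ((M + 1) * lz) ≤ Fr z (X * z) * Real.log (X * z) / (X * z) := by
      rw [le_div_iff₀ hXz0, hlXz]
      have h6 : (1 - κ₁ / s) * Vf z * (X * z) ≤ Fr z (X * z) := by linarith [h3.1]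
      have h7 : 0 ≤ ((M : ℝ) + 1) * lz := by positivity
      calc (1 - κ₁ / s) * Vf z * ((M + 1) * lz) * (X * z) = (1 - κ₁ / s) * Vf z * (X * z) * (((M : ℝ) + 1) * lz) := by ring
        _ ≤ Fr z (X * z) * (((M : ℝ) + 1) * lz) := mul_le_mul_of_nonneg_right h6 h7
    have h8 : κ₁ / s * (Vf z * ((M + 1) * lz)) ≤ e / 4 := by
      have h9 : Vf z * (((M : ℝ) + 1) * lz) ≤ 4 * (M + 1) := by
        calc Vf z * (((M : ℝ) + 1) * lz) = (Vf z * lz) * (M + 1) := by ring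
          _ ≤ 4 * (M + 1) := mul_le_mul_of_nonneg_right hV (by linarith)
      have h10 : ((M : ℝ) + 1) / s ≤ A + 3 := by
        rw [div_le_iff₀ (by linarith), hMr]
        nlinarith
      calc κ₁ / s * (Vf z * ((M + 1) * lz)) ≤ κ₁ / s * (4 * (M + 1)) := mul_le_mul_of_nonneg_left h9 (by positivity)
        _ = 4 * κ₁ * (((M : ℝ) + 1) / s) := by ring
        _ ≤ 4 * κ₁ * ((A : ℝ) + 3) := mul_le_mul_of_nonneg_left h10 (by linarith)
        _ ≤ e / 4 := hκ₁e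
    -- the star identity at x
    have h11 := hstar z hzz₃ x hx1 hxS
    rw [← hy, abs_le] at h11
    have hlxy : Real.log x = Real.log y + lz := by
      rw [hxy, Real.log_mul hy0.ne' hz0.ne', ← hlz]
    have hly0 : 0 ≤ Real.log y := Real.log_nonneg hy11
    rw [hlX] at h1
    have h12 : κ * (Vf z * (M * lz)) ≤ κ * (4 * M) := by
      refine mul_le_mul_of_nonneg_left ?_ hκ0.le
      calc Vf z * ((M : ℝ) * lz) = (Vf z * lz) * M := by ring
        _ ≤ 4 * M := mul_le_mul_of_nonneg_right hV hM0.le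
    have h13 : 0 ≤ κ * (Vf z * Real.log y) := by positivity
    rw [hlxy]
    have e1 : (1 + κ) * Vf z * (M * lz - Real.log y) =
        Vf z * (M * lz) - Vf z * Real.log y + κ * (Vf z * (M * lz)) - κ * (Vf z * Real.log y) := by ring
    have e2 : (1 - κ₁ / s) * Vf z * ((M + 1) * lz) = Vf z * (M * lz) + Vf z * lz - κ₁ / s * (Vf z * ((M + 1) * lz)) := by ring
    have e3 : Vf z * (Real.log y + lz) = Vf z * Real.log y + Vf z * lz := by ring
    rw [e1] at h1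
    rw [e2] at h5
    have e4 : 8 * κ * ((M : ℝ) + 2) = 2 * (κ * (4 * M)) + 16 * κ := by ring
    rw [hlxy] at h11
    have h14 : 0 ≤ κ * (4 * (M : ℝ)) := by positivity
    linarith [h2.1, h2.2, h11.1, h11.2]
  · -- upper bound
    have h1 := hreal x (le_trans (Real.rpow_le_rpow_of_exponent_le hz1 (by linarith)) hx1) hxS
    have h2 : Fr z x * Real.log x / x ≤ (1 + κ) * Vf z * Real.log x := by
      rw [div_le_iff₀ hx0]
      nlinarith
    have h3 : Vf z * Real.log x ≤ 4 * (a + 2) := by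
      calc Vf z * Real.log x ≤ Vf z * ((a + 2) * lz) := mul_le_mul_of_nonneg_left hlx hVp.le
        _ = (Vf z * lz) * (a + 2) := by ring
        _ ≤ 4 * (a + 2) := mul_le_mul_of_nonneg_right hV (by linarith)
    have h4 : κ * (Vf z * Real.log x) ≤ κ * (4 * (a + 2)) := mul_le_mul_of_nonneg_left h3 hκ0.le
    have h5 : κ * (a + 2) ≤ κ * ((M : ℝ) + 2) := mul_le_mul_of_nonneg_left (by rw [hMr]; linarith) hκ0.le
    nlinarith

theorem exc_holds : EXC := by
  intro u hu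
  obtain ⟨N, hN⟩ : ∃ N : ℕ, N = ⌈u⌉₊ + 1 := ⟨_, rfl⟩
  have hNu : u + 2 ≤ 11 / 10 + (N : ℝ) + 1 := by
    rw [hN]
    push_cast
    linarith [Nat.le_ceil u]
  obtain ⟨e, he, z₁, h₁⟩ := descent (N + 1) (1 / 100) (by norm_num)
  obtain ⟨S, κ, hκ0, hκ1, z₂, hz₂, h₂⟩ := start' (a := 11 / 10 + ((N + 1 : ℕ) : ℝ)) hu (by push_cast; linarith) he
  obtain ⟨z₃, h₃⟩ := finish
  refine ⟨S, κ, hκ0, hκ1, max z₁ (max z₂ z₃), fun z hz => ?_⟩
  by_contra hcon
  refine h₃ z (le_trans (le_trans (le_max_right _ _) (le_max_right _ _)) hz) (h₁ z (le_trans (le_max_left _ _) hz)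
    (h₂ z (le_trans (le_trans (le_max_left _ _) (le_max_right _ _)) hz) ?_))
  intro x hx1 hx2
  by_contra hx3
  exact hcon ⟨x, hx1, hx2, not_lt.1 hx3⟩

end Pool.Agent.Q120.MG
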