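import Pool.Agent.Q120.MG.D3

/-!
# Too few numbers without small prime factors in some initial segments
-/

set_option autoImplicit false

namespace Pool.Agent.Q120.MG

open Finset Filter Topology MeasureTheory

/-- The counting function is close to its expected value between `z ^ a` and `z ^ (a + 2)`. -/
def PP (z : ℕ) (a e : ℝ) : Prop := ∀ x : ℝ, (z : ℝ) ^ a ≤ x → x ≤ (z : ℝ) ^ (a + 2) →
  |Fr z x * Real.log x / x - Vf z * Real.log x| ≤ e

/-- The density bound alone. -/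
theorem dens_bound : ∃ z₀ : ℕ, 2 ≤ z₀ ∧ ∀ z : ℕ, z₀ ≤ z → Vf z * Real.log z ≤ 4 := by
  obtain ⟨s, _, z₀, hz₀, h⟩ := fund one_pos le_rfl
  exact ⟨z₀, hz₀, fun z hz => (h z hz).1⟩

theorem step {a e' : ℝ} (ha : 11 / 10 ≤ a) (he' : 0 < e') : ∃ e : ℝ, 0 < e ∧ ∃ z₀ : ℕ, ∀ z : ℕ, z₀ ≤ z →
    PP z (a + 1) e → PP z a e' := by
  obtain ⟨C, z₁, hC, hz₁, hup⟩ := Fr_upper
  obtain ⟨z₂, hz₂, hdens⟩ := dens_bound
  obtain ⟨θ, hθ⟩ : ∃ θ, θ = min 1 (e' / (8 * (4 + C))) := ⟨_, rfl⟩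
  have hθ0 : 0 < θ := by rw [hθ]; exact lt_min (by norm_num) (by positivity)
  have hθ1 : θ ≤ 1 := by rw [hθ]; exact min_le_left _ _
  have hθC : (4 + C) * θ ≤ e' / 8 := by
    have h1 : θ ≤ e' / (8 * (4 + C)) := by rw [hθ]; exact min_le_right _ _
    calc (4 + C) * θ ≤ (4 + C) * (e' / (8 * (4 + C))) := mul_le_mul_of_nonneg_left h1 (by linarith)
      _ = e' / 8 := by field_simp
  obtain ⟨δ, hδ⟩ : ∃ δ, δ = e' * θ / (16 * (a + 2)) := ⟨_, rfl⟩
  have ha2 : 0 < a + 2 := by linarith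
  have hδ0 : 0 < δ := by rw [hδ]; positivity
  have hδa : 2 * δ * ((a + 2) / θ) = e' / 8 := by
    rw [hδ]
    field_simp
    ring
  have hδe : 2 * δ ≤ e' / 8 := by
    rw [hδ]
    have h1 : e' * θ / (16 * (a + 2)) ≤ e' * 1 / (16 * 1) := by
      refine div_le_div₀ (by linarith) (mul_le_mul_of_nonneg_left hθ1 he'.le) (by norm_num) (by linarith)
    linarith
  obtain ⟨z₃, hz₃, hstar⟩ := star (a := a) (S := a + 3) (η := δ) (by linarith) hδ0
  have hcast : Tendsto (fun z : ℕ => (z : ℝ)) atTop atTop := tendsto_natCast_atTop_atTop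
  have e4 : ∀ᶠ z : ℕ in atTop, 8 / e' ≤ (z : ℝ) ^ (a - 1) :=
    ((tendsto_rpow_atTop (by linarith : 0 < a - 1)).comp hcast).eventually (eventually_ge_atTop _)
  obtain ⟨z₄, hz₄⟩ := eventually_atTop.1 e4
  refine ⟨δ, hδ0, max (max z₁ z₂) (max z₃ z₄), fun z hz hP y hy1 hy2 => ?_⟩
  have hzz₁ : z₁ ≤ z := le_trans (le_trans (le_max_left _ _) (le_max_left _ _)) hz
  have hzz₂ : z₂ ≤ z := le_trans (le_trans (le_max_right _ _) (le_max_left _ _)) hz
  have hzz₃ : z₃ ≤ z := le_trans (le_trans (le_max_left _ _) (le_max_right _ _)) hz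
  have hzz₄ : z₄ ≤ z := le_trans (le_trans (le_max_right _ _) (le_max_right _ _)) hz
  have hzr : (2 : ℝ) ≤ z := by exact_mod_cast le_trans hz₂ hzz₂
  have hz0 : (0 : ℝ) < z := by linarith
  have hz1 : (1 : ℝ) ≤ z := by linarith
  obtain ⟨lz, hlz⟩ : ∃ lz, lz = Real.log (z : ℝ) := ⟨_, rfl⟩
  have hlz0 : 0 < lz := by rw [hlz]; exact Real.log_pos (by linarith)
  have hV := hdens z hzz₂
  rw [← hlz] at hV
  have hVp := Vf_pos z
  rcases le_or_gt ((z : ℝ) ^ (a + 1)) y with hc | hc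
  · have h1 := hP y hc (hy2.trans (Real.rpow_le_rpow_of_exponent_le hz1 (by linarith)))
    linarith
  -- the main case
  obtain ⟨K, hK⟩ : ∃ K, K = C / lz := ⟨_, rfl⟩
  have hK0 : 0 ≤ K := by rw [hK]; positivity
  have hKz : K * lz = C := by rw [hK]; field_simp
  have hF : ∀ t : ℝ, 1 ≤ t → Fr z t ≤ 1 + K * t := by
    intro t ht
    have h1 := hup z hzz₁ t ht
    rw [← hlz] at h1
    have h2 : C * (t / lz) = K * t := by rw [hK]; ring
    rw [h2] at h1
    exact h1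
  have hza : (z : ℝ) ≤ (z : ℝ) ^ a := by
    calc (z : ℝ) = (z : ℝ) ^ (1 : ℝ) := (Real.rpow_one _).symm
      _ ≤ (z : ℝ) ^ a := Real.rpow_le_rpow_of_exponent_le hz1 (by linarith)
  have hyz : (z : ℝ) ≤ y := hza.trans hy1
  have hy0 : 0 < y := by linarith
  have hy1' : 1 < y := by linarith
  obtain ⟨zt, hzt⟩ : ∃ zt, zt = (z : ℝ) ^ θ := ⟨_, rfl⟩
  have hzt1 : 1 ≤ zt := by rw [hzt]; exact Real.one_le_rpow hz1 hθ0.le
  have hzt0 : 0 < zt := by linarith
  obtain ⟨y', hy'⟩ : ∃ y', y' = y * zt := ⟨_, rfl⟩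
  have hyy : y ≤ y' := by rw [hy']; nlinarith
  have hy'0 : 0 < y' := by linarith
  obtain ⟨L, hL⟩ : ∃ L, L = Real.log y := ⟨_, rfl⟩
  obtain ⟨L', hL'⟩ : ∃ L', L' = Real.log y' := ⟨_, rfl⟩
  have hLL : L' = L + θ * lz := by
    rw [hL', hL, hy', Real.log_mul hy0.ne' hzt0.ne', hzt, Real.log_rpow hz0, hlz]
  have hL1 : lz ≤ L := by
    rw [hL, hlz]
    exact Real.log_le_log hz0 hyz
  have hL0 : 0 < L := by linarith
  have hL2 : L ≤ (a + 1) * lz := by
    have h1 := Real.log_le_log hy0 hc.le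
    rw [Real.log_rpow hz0, ← hlz, ← hL] at h1
    exact h1
  have hL'0 : 0 < L' := by
    have : 0 < θ * lz := by positivity
    linarith
  have hL'2 : L' ≤ (a + 2) * lz := by
    rw [hLL]
    nlinarith
  -- powers
  have hp1 : (z : ℝ) ^ (a + 1) = (z : ℝ) ^ a * z := by rw [Real.rpow_add hz0, Real.rpow_one]
  have hp2 : (z : ℝ) ^ (a + 2) = (z : ℝ) ^ (a + 1) * z := by
    rw [show a + 2 = (a + 1) + 1 by ring, Real.rpow_add hz0 (a + 1), Real.rpow_one]
  have hp3 : (z : ℝ) ^ (a + 3) = (z : ℝ) ^ (a + 2) * z := by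
    rw [show a + 3 = (a + 2) + 1 by ring, Real.rpow_add hz0 (a + 2), Real.rpow_one]
  have hztz : zt ≤ z := by
    rw [hzt]
    calc (z : ℝ) ^ θ ≤ (z : ℝ) ^ (1 : ℝ) := Real.rpow_le_rpow_of_exponent_le hz1 hθ1
      _ = z := Real.rpow_one _
  have hpa0 : 0 < (z : ℝ) ^ a := by positivity
  have hpa1 : 0 < (z : ℝ) ^ (a + 1) := by positivity
  have hpa2 : 0 < (z : ℝ) ^ (a + 2) := by positivity
  have hy'2 : y' ≤ (z : ℝ) ^ (a + 2) := by
    rw [hy', hp2]
    exact mul_le_mul hc.le hztz hzt0.le hpa1.le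
  -- the star identity at the two points
  have s1 := hstar z hzz₃ (y * z) (by nlinarith) (by
    rw [hp3]
    exact mul_le_mul_of_nonneg_right hy2 hz0.le)
  have s2 := hstar z hzz₃ (y' * z) (by nlinarith) (by
    rw [hp3]
    exact mul_le_mul_of_nonneg_right hy'2 hz0.le)
  have q1 := hP (y * z) (by rw [hp1]; exact mul_le_mul_of_nonneg_right hy1 hz0.le) (by
    rw [show a + 1 + 2 = a + 3 by ring, hp3]
    exact mul_le_mul_of_nonneg_right hy2 hz0.le)
  have q2 := hP (y' * z) (by rw [hp1]; exact mul_le_mul_of_nonneg_right (hy1.trans hyy) hz0.le) (by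
    rw [show a + 1 + 2 = a + 3 by ring, hp3]
    exact mul_le_mul_of_nonneg_right hy'2 hz0.le)
  rw [mul_div_cancel_right₀ y hz0.ne'] at s1
  rw [mul_div_cancel_right₀ y' hz0.ne'] at s2
  have l1 : Real.log (y * z) = L + lz := by rw [Real.log_mul hy0.ne' hz0.ne', ← hL, ← hlz]
  have l2 : Real.log (y' * z) = L' + lz := by rw [Real.log_mul hy'0.ne' hz0.ne', ← hL', ← hlz]
  have hdiff : |II z y' - II z y - Vf z * (θ * lz)| ≤ 4 * δ := by
    rw [abs_le] at s1 s2 q1 q2 ⊢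
    have h3 : Vf z * Real.log (y' * z) - Vf z * Real.log (y * z) = Vf z * (θ * lz) := by
      rw [l1, l2, hLL]
      ring
    constructor <;> linarith [s1.1, s1.2, s2.1, s2.2, q1.1, q1.2, q2.1, q2.2]
  -- continuity
  obtain ⟨ρ, hρ⟩ : ∃ ρ, ρ = e' / 8 + C * θ + 2 * δ := ⟨_, rfl⟩
  obtain ⟨g, hg⟩ : ∃ g, g = Fr z y * Real.log y / y := ⟨_, rfl⟩
  have s0 := hstar z hzz₃ y hy1 (hy2.trans (Real.rpow_le_rpow_of_exponent_le hz1 (by linarith)))
  rw [← hg, abs_le] at s0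
  have hyz1 : 1 ≤ y / z := by
    rw [le_div_iff₀ hz0]
    linarith
  have hinv : 1 / (y / z) ≤ e' / 8 := by
    have h1 := hz₄ z hzz₄
    have h2 : (z : ℝ) ^ (a - 1) ≤ y / z := by
      rw [le_div_iff₀ hz0]
      calc (z : ℝ) ^ (a - 1) * z = (z : ℝ) ^ (a - 1) * (z : ℝ) ^ (1 : ℝ) := by rw [Real.rpow_one]
        _ = (z : ℝ) ^ a := by rw [← Real.rpow_add hz0]; ring_nf
        _ ≤ y := hy1
    have h3 : 8 / e' ≤ y / z := h1.trans h2
    rw [div_le_div_iff₀ (by positivity) (by norm_num)]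
    rw [div_le_iff₀ he'] at h3
    linarith
  have hcont : ∀ t : ℝ, y ≤ t → t ≤ y' → g - ρ ≤ Fr z t * Real.log t / t ∧ Fr z t * Real.log t / t ≤ g + ρ := by
    intro t ht1 ht2
    have s3 := hstar z hzz₃ t (hy1.trans ht1) (ht2.trans (hy'2.trans (Real.rpow_le_rpow_of_exponent_le hz1 (by linarith))))
    rw [abs_le] at s3
    have hdd : y / z ≤ t / z := div_le_div_of_nonneg_right ht1 hz0.le
    have h1 := II_mono (z := z) hyz1 hdd
    have h2 := II_diff_le hK0 hF hyz1 hdd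
    have h3 : Real.log (t / z) - Real.log (y / z) ≤ θ * lz := by
      rw [Real.log_div (by linarith) hz0.ne', Real.log_div hy0.ne' hz0.ne', ← hL]
      have h4 := Real.log_le_log (by linarith : 0 < t) ht2
      rw [← hL', hLL] at h4
      linarith
    have h4 : K * (Real.log (t / z) - Real.log (y / z)) ≤ C * θ := by
      calc K * (Real.log (t / z) - Real.log (y / z)) ≤ K * (θ * lz) := mul_le_mul_of_nonneg_left h3 hK0
        _ = C * θ := by rw [← hKz]; ring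
    have h5 : 0 ≤ C * θ := by positivity
    rw [hρ]
    constructor
    · linarith [s0.1, s0.2, s3.1, s3.2]
    · linarith [s0.1, s0.2, s3.1, s3.2]
  obtain ⟨d1, d2⟩ := II_diff_G hy1' hyy hcont
  rw [← hL, ← hL'] at d1 d2
  obtain ⟨lam, hlam⟩ : ∃ lam, lam = Real.log L' - Real.log L := ⟨_, rfl⟩
  rw [← hlam] at d1 d2
  have hlam' : lam = Real.log (L' / L) := by rw [hlam, Real.log_div hL'0.ne' hL0.ne']
  obtain ⟨q, hq⟩ : ∃ q, q = θ * lz := ⟨_, rfl⟩
  have hq0 : 0 < q := by rw [hq]; positivity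
  rw [← hq] at hLL hdiff
  have hlam1 : lam * L ≤ q := by
    have h1 := Real.log_le_sub_one_of_pos (div_pos hL'0 hL0)
    rw [← hlam'] at h1
    have h2 : (L' / L - 1) * L = q := by
      rw [hLL]
      field_simp
      ring
    calc lam * L ≤ (L' / L - 1) * L := mul_le_mul_of_nonneg_right h1 hL0.le
      _ = q := h2
  have hlam2 : q ≤ lam * L' := by
    have h1 := Real.one_sub_inv_le_log_of_pos (div_pos hL'0 hL0)
    rw [← hlam'] at h1
    have h2 : (1 - (L' / L)⁻¹) * L' = q := by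
      rw [inv_div]
      have : (1 - L / L') * L' = L' - L := by field_simp
      rw [this, hLL]
      ring
    calc q = (1 - (L' / L)⁻¹) * L' := h2.symm
      _ ≤ lam * L' := mul_le_mul_of_nonneg_right h1 hL'0.le
  have hlam0 : 0 < lam := by
    by_contra hcon
    have : lam * L' ≤ 0 := mul_nonpos_of_nonpos_of_nonneg (not_lt.1 hcon) hL'0.le
    linarith
  have hlamθ : 1 ≤ (a + 2) / θ * lam := by
    have h1 : θ * lz ≤ (a + 2) * lam * lz := by
      calc θ * lz = q := hq.symm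
        _ ≤ lam * L' := hlam2
        _ ≤ lam * ((a + 2) * lz) := mul_le_mul_of_nonneg_left hL'2 hlam0.le
        _ = (a + 2) * lam * lz := by ring
    have h2 : θ ≤ (a + 2) * lam := le_of_mul_le_mul_right h1 hlz0
    rw [div_mul_eq_mul_div, le_div_iff₀ hθ0]
    linarith
  obtain ⟨τ, hτ⟩ : ∃ τ, τ = 4 * δ * ((a + 2) / θ) := ⟨_, rfl⟩
  have hτe : τ = e' / 4 := by
    rw [hτ]
    linarith
  have hτl : 4 * δ ≤ τ * lam := by
    rw [hτ]
    calc 4 * δ = 4 * δ * 1 := by ring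
      _ ≤ 4 * δ * ((a + 2) / θ * lam) := mul_le_mul_of_nonneg_left hlamθ (by linarith)
      _ = 4 * δ * ((a + 2) / θ) * lam := by ring
  rw [abs_le] at hdiff
  have hVlz : Vf z * q ≤ 4 * θ := by
    rw [hq]
    calc Vf z * (θ * lz) = (Vf z * lz) * θ := by ring
      _ ≤ 4 * θ := mul_le_mul_of_nonneg_right hV hθ0.le
  have hup' : g - ρ ≤ Vf z * L' + τ := by
    by_contra hcon
    have hcon := not_le.1 hcon
    have h1 : (Vf z * L' + τ) * lam < (g - ρ) * lam := mul_lt_mul_of_pos_right hcon hlam0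
    have h2 : Vf z * q ≤ Vf z * (lam * L') := mul_le_mul_of_nonneg_left hlam2 hVp.le
    have h3 : (Vf z * L' + τ) * lam = Vf z * (lam * L') + τ * lam := by ring
    linarith [hdiff.2]
  have hlow' : Vf z * L - τ ≤ g + ρ := by
    by_contra hcon
    have hcon := not_le.1 hcon
    have h1 : (g + ρ) * lam < (Vf z * L - τ) * lam := mul_lt_mul_of_pos_right hcon hlam0
    have h2 : Vf z * (lam * L) ≤ Vf z * q := mul_le_mul_of_nonneg_left hlam1 hVp.le
    have h3 : (Vf z * L - τ) * lam = Vf z * (lam * L) - τ * lam := by ring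
    linarith [hdiff.1]
  have hVL' : Vf z * L' = Vf z * L + Vf z * q := by rw [hLL]; ring
  rw [← hg, ← hL, abs_le]
  have hsplit : (4 + C) * θ = 4 * θ + C * θ := by ring
  constructor
  · rw [hρ] at hlow'
    linarith
  · rw [hρ] at hup'
    linarith

end Pool.Agent.Q120.MG
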